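import Pool.Agent.Lib.MP_721660_al.Boundary

namespace Pool.Agent.Results.MP_721660_al.PolycyclicBoundary

/-- If a finitely generated group `Q` has a soluble section that is not finitely generated, some
finitely generated abelian-by-`Q` group has a strictly ascending chain of centralizers. -/
theorem result : ∀ (Q : Type) [Group Q], Group.FG Q →
    (∃ (K : Subgroup Q) (S : Type) (_ : Group S) (ρ : K →* S),
      Function.Surjective ρ ∧ Group.IsSolvable S ∧ ¬ Group.FG S) →
    ∀ m : ℕ, 2 ≤ m →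
      ∃ (G : Type) (_ : Group G) (f : G →* Q), Group.FG G ∧ Function.Surjective f ∧
        (∀ x ∈ f.ker, ∀ y ∈ f.ker, x * y = y * x) ∧ (∀ x ∈ f.ker, x ^ m = 1) ∧
        ∃ g : ℕ → G, StrictMono fun n => Subgroup.centralizer ({g n} : Set G) := by
  intro Q _ hQ ⟨K, S, _, ρ, hρ, hs, hS⟩ m hm
  obtain ⟨L, H, h1, h2, h3⟩ := Pool.Agent.Lib.MP_721660_al.chain_of_section K ρ hρ hs hS
  exact Pool.Agent.Lib.MP_721660_al.main hQ L H h1 h2 h3 m (by omega)

end Pool.Agent.Results.MP_721660_al.PolycyclicBoundary
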