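import Pool.Agent.Lib.MP_721660_al.Hs.All

set_option autoImplicit false

namespace Pool.Agent.Results.MP_721660_al.Stunted

theorem result : ∀ (G Q : Type) [Group G] [Group Q] (f : G →* Q), Group.FG G →
    Function.Surjective f → Group.IsSolvable Q → (∀ H : Subgroup Q, H.FG) →
    (∀ x ∈ f.ker, ∀ y ∈ f.ker, x * y = y * x) →
    ∃ h : ℕ, ∀ (H : Subgroup G) (n : ℕ),
      Subgroup.upperCentralSeries H n ≤ Subgroup.upperCentralSeries H h :=
  fun G Q _ _ f hG hf hs hm hA => Pool.Agent.Lib.MP_721660_al.Hs.gstu_all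
    Pool.Agent.Lib.MP_721660_al.Hs.mainF G Q f hG hf hA hs hm

end Pool.Agent.Results.MP_721660_al.Stunted
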